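import Pool.Agent.ASO.Stmts7
import Pool.Agent.Helper46_WRA.Afc
import Pool.Agent.Helper76_ASO.FUW

/-!
# Squad ASO, row CMI: the comparison block, basic part
-/

open scoped BigOperators

set_option autoImplicit false

noncomputable section

namespace Pool.Agent.PP.SO.H76

open Pool.Agent.Helper51_AWC Pool.Agent.Helper79_WRA Pool.Agent.PP Pool.Agent.PP.KF
open Pool.Agent.PP.K9 Pool.Agent.PP.K9.H97 Pool.Agent.PP.H75 Pool.Agent.PP.T3

attribute [local instance] Ideal.Quotient.field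

namespace CM

section grp

open SemidirectProduct

variable {V₀ : Type} [CommGroup V₀] {E₀ : Subgroup (MulAut V₀)}

/-- conjugation in the semidirect product -/
theorem mul_inl (y : V₀ ⋊[E₀.subtype] E₀) (v : V₀) :
    y * inl v = inl ((y.right : MulAut V₀) v) * y := by
  apply SemidirectProduct.ext
  · simp only [mul_left, left_inl, right_inl, map_one, MulAut.one_apply, Subgroup.coe_subtype]
    exact mul_comm _ _
  · simp only [mul_right, right_inl, mul_one, one_mul]

theorem right_fix {y : V₀ ⋊[E₀.subtype] E₀} {v : V₀} (h : y * inl v = inl v * y) :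
    (y.right : MulAut V₀) v = v := by
  rw [mul_inl] at h
  exact inl_injective (mul_right_cancel h)

theorem eq_inl {y : V₀ ⋊[E₀.subtype] E₀} (h : y.right = 1) : y = inl y.left := by
  apply SemidirectProduct.ext
  · simp
  · simp [h]

end grp

section gen

variable {G : Type} [Group G] [Finite G] {ℓ : ℕ} [Fact ℓ.Prime]

omit [Finite G] in
/-- an `ℓ`-element of a subgroup of order prime to `ℓ` is trivial -/
theorem cop {K : Subgroup G} (hK : ¬ ℓ ∣ Nat.card K) {x : G} (hx : x ∈ K) {n : ℕ}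
    (h : x ^ ℓ ^ n = 1) : x = 1 := by
  have h1 : orderOf x ∣ ℓ ^ n := orderOf_dvd_of_pow_eq_one h
  have h2 : orderOf x ∣ Nat.card K := by
    have h3 := orderOf_dvd_natCard (⟨x, hx⟩ : K)
    rwa [Subgroup.orderOf_mk] at h3
  have h3 : (ℓ ^ n).Coprime (Nat.card K) :=
    Nat.Coprime.pow_left n ((Nat.Prime.coprime_iff_not_dvd Fact.out).2 hK)
  have h4 : orderOf x = 1 := Nat.dvd_one.1 (h3 ▸ Nat.dvd_gcd h1 h2)
  exact orderOf_eq_one_iff.1 h4

/-- the number of elements of `N` is `1` in `F` if `1` is the only fixed point of `V` -/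
theorem card_one {F : Type} [Field F] [CharP F ℓ] {V N : Subgroup G} (hV : IsPGroup ℓ V)
    (hN : ∀ v ∈ V, ∀ x ∈ N, v * x * v⁻¹ ∈ N)
    (hfix : ∀ x ∈ N, (∀ v ∈ V, v * x = x * v) → x = 1) : (Nat.card N : F) = 1 := by
  let act : MulAction V N :=
    { smul := fun v x => ⟨v * x * (v : G)⁻¹, hN v v.2 x x.2⟩
      one_smul := fun x => Subtype.ext (by change ((1 : V) : G) * x * ((1 : V) : G)⁻¹ = x; simp)
      mul_smul := fun v w x => Subtype.ext (by
        change ((v * w : V) : G) * x * ((v * w : V) : G)⁻¹ = v * (w * x * (w : G)⁻¹) * (v : G)⁻¹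
        push_cast
        group) }
  have h1 := hV.card_modEq_card_fixedPoints N
  have h2 : Nat.card (MulAction.fixedPoints V N) = 1 := by
    rw [Nat.card_eq_one_iff_unique]
    refine ⟨⟨?_⟩, ⟨⟨1, ?_⟩⟩⟩
    · have hone : ∀ a : MulAction.fixedPoints V N, ((a : N) : G) = 1 := by
        intro a
        refine hfix a a.1.2 fun v hv => ?_
        have h3 := congrArg (fun y : N => (y : G)) (a.2 ⟨v, hv⟩)
        change v * ((a : N) : G) * v⁻¹ = ((a : N) : G) at h3
        rw [← mul_inv_eq_iff_eq_mul]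
        exact h3
      intro a b
      exact Subtype.ext (Subtype.ext ((hone a).trans (hone b).symm))
    · intro v
      apply Subtype.ext
      change (v : G) * ((1 : N) : G) * (v : G)⁻¹ = ((1 : N) : G)
      simp
  rw [h2] at h1
  have h3 := (CharP.natCast_eq_natCast F ℓ).2 h1
  rw [h3, Nat.cast_one]

theorem not_dvd {F : Type} [Field F] [CharP F ℓ] {n : ℕ} (h : (n : F) = 1) : ¬ ℓ ∣ n := by
  intro h1
  rw [(CharP.cast_eq_zero_iff F ℓ n).2 h1] at h
  exact zero_ne_one h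

end gen

/-- the indicator of the kernel -/
def kf (F : Type) [Field F] {A B : Type} [Group A] [Group B] (π : A →* B) : A → F :=
  fun x => open scoped Classical in if π x = 1 then 1 else 0

theorem infl_one1 {F A B : Type} [Field F] [Group A] [Group B] (π : A →* B)
    (h : (Nat.card π.ker : F) = 1) : infl π (one1 : B → F) = kf F π := by
  funext x
  unfold infl one1 kf
  rw [h, inv_one, one_mul]

variable {ℓ : ℕ} [Fact ℓ.Prime] (M : Ideal (integralClosure ℤ ℂ)) [M.IsMaximal]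

/-- the block of the indicator of the kernel -/
theorem blk_gen (inf : InfStmt) (onb : OnbStmt) (hM : (ℓ : integralClosure ℤ ℂ) ∈ M)
    [CharP (FF M) ℓ] {A B : Type} [Group A] [Finite A] [Group B] [Finite B] (π : A →* B)
    (hs : Function.Surjective π) (hk : (Nat.card π.ker : FF M) = 1) (P : Subgroup B)
    (hPn : P.Normal) (hP : IsPGroup ℓ P) (hc : Subgroup.centralizer (P : Set B) ≤ P) :
    IsBlk (kf (FF M) π) ∧ IrrE M (kf (FF M) π) = {χ | ∃ κ ∈ Irr B, χ = fun x => κ (π x)} := by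
  obtain ⟨h1, h2, h3, h4⟩ := inf ℓ M hM A B π hs (not_dvd hk)
  obtain ⟨h5, h6⟩ := onb ℓ M hM B P hPn hP hc
  rw [← infl_one1 π hk]
  refine ⟨h3 _ h5, ?_⟩
  rw [h4 _ h5.1, h6]


/-- the conditions on the group -/
structure Cx (ℓ : ℕ) {V₀ : Type} [CommGroup V₀] (E₀ : Subgroup (MulAut V₀)) {G : Type} [Group G]
    (π : G →* V₀ ⋊[E₀.subtype] E₀) (ι : V₀ →* G) : Prop where
  ex : ∀ v : V₀, v ^ ℓ = 1
  cd : Nat.card V₀ = ℓ ^ 2
  ce : ¬ ℓ ∣ Nat.card E₀
  sur : Function.Surjective π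
  ck : ¬ ℓ ∣ Nat.card π.ker
  pi : ∀ v, π (ι v) = SemidirectProduct.inl v
  cen : Subgroup.centralizer (ι.range : Set G) ≤ ι.range

section cx

variable {V₀ : Type} [CommGroup V₀] {E₀ : Subgroup (MulAut V₀)} {G : Type} [Group G]
  {π : G →* V₀ ⋊[E₀.subtype] E₀} {ι : V₀ →* G} (h : Cx ℓ E₀ π ι)

include h

omit [Fact ℓ.Prime]

theorem Cx.inj : Function.Injective ι := by
  intro v w e
  have e1 := congrArg π e
  rw [h.pi, h.pi] at e1
  exact SemidirectProduct.inl_injective e1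

theorem Cx.mem1 {x : G} (hx : x ∈ ι.range) (e : π x = 1) : x = 1 := by
  obtain ⟨v, rfl⟩ := hx
  rw [h.pi] at e
  have e1 : v = 1 := SemidirectProduct.inl_injective (e.trans (map_one _).symm)
  rw [e1, map_one]

theorem Cx.pg : IsPGroup ℓ ι.range := by
  rintro ⟨x, v, rfl⟩
  refine ⟨1, Subtype.ext ?_⟩
  change ι v ^ ℓ ^ 1 = 1
  rw [pow_one, ← map_pow, h.ex, map_one]

omit h in
theorem comm_range {a b : G} (ha : a ∈ ι.range) (hb : b ∈ ι.range) : a * b = b * a := by
  obtain ⟨v, rfl⟩ := ha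
  obtain ⟨w, rfl⟩ := hb
  rw [← map_mul, ← map_mul, mul_comm]

theorem Cx.card : Nat.card ι.range = ℓ ^ 2 := by
  rw [← h.cd]
  exact (Nat.card_congr (MonoidHom.ofInjective h.inj).toEquiv).symm

theorem Cx.fix {x : G} (hx : π x = 1) (hc : ∀ v ∈ ι.range, v * x = x * v) : x = 1 :=
  h.mem1 (h.cen (Subgroup.mem_centralizer_iff.2 hc)) hx

variable [Finite G] [Fact ℓ.Prime]

theorem Cx.one' (F : Type) [Field F] [CharP F ℓ] : (Nat.card π.ker : F) = 1 := by
  refine card_one h.pg (fun v _ x hx => ?_) fun x hx hc => h.fix hx hc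
  exact (MonoidHom.normal_ker π).conj_mem x hx v

theorem Cx.one (F : Type) [Field F] [CharP F ℓ] {C : Subgroup G} (hC : ι.range ≤ C) :
    (Nat.card (π.subgroupMap C).ker : F) = 1 := by
  rw [Subgroup.ker_subgroupMap, ← Subgroup.inf_subgroupOf_right, card_sub inf_le_right]
  refine card_one h.pg (fun v hv x hx => ⟨?_, ?_⟩) fun x hx hc => h.fix hx.1 hc
  · exact (MonoidHom.normal_ker π).conj_mem x hx.1 v
  · exact C.mul_mem (C.mul_mem (hC hv) hx.2) (C.inv_mem (hC hv))

omit [Fact ℓ.Prime] [Finite G] in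
theorem Cx.pgB (B : Subgroup (V₀ ⋊[E₀.subtype] E₀)) :
    IsPGroup ℓ ((SemidirectProduct.inl : V₀ →* V₀ ⋊[E₀.subtype] E₀).range.subgroupOf B) := by
  rintro ⟨x, hx⟩
  obtain ⟨v, hv⟩ := Subgroup.mem_subgroupOf.1 hx
  refine ⟨1, Subtype.ext (Subtype.ext ?_)⟩
  change (x : V₀ ⋊[E₀.subtype] E₀) ^ ℓ ^ 1 = 1
  rw [← hv, pow_one, ← map_pow, h.ex, map_one]

/-- the local block -/
theorem Cx.blkC (inf : InfStmt) (onb : OnbStmt) (hM : (ℓ : integralClosure ℤ ℂ) ∈ M)
    [CharP (FF M) ℓ] {C : Subgroup G} (hC : ι.range ≤ C) :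
    IsBlk (kf (FF M) (π.subgroupMap C)) ∧ IrrE M (kf (FF M) (π.subgroupMap C)) =
      {χ | ∃ κ ∈ Irr (C.map π), χ = fun x => κ (π.subgroupMap C x)} := by
  have hf : Finite (V₀ ⋊[E₀.subtype] E₀) := Finite.of_surjective π h.sur
  refine blk_gen M inf onb hM (π.subgroupMap C) (MonoidHom.subgroupMap_surjective π C)
    (h.one (FF M) hC)
    ((SemidirectProduct.inl : V₀ →* V₀ ⋊[E₀.subtype] E₀).range.subgroupOf (C.map π)) ?_
    (h.pgB _) ?_
  · have hn : (SemidirectProduct.inl : V₀ →* V₀ ⋊[E₀.subtype] E₀).range.Normal := by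
      rw [SemidirectProduct.range_inl_eq_ker_rightHom]
      exact MonoidHom.normal_ker _
    exact hn.subgroupOf _
  · intro x hx
    rw [Subgroup.mem_centralizer_iff] at hx
    rw [Subgroup.mem_subgroupOf]
    have h1 : (x : V₀ ⋊[E₀.subtype] E₀).right = 1 := by
      apply Subtype.ext
      apply MulEquiv.ext
      intro v
      have hv : SemidirectProduct.inl v ∈ C.map π := ⟨ι v, hC ⟨v, rfl⟩, h.pi v⟩
      have h2 := hx ⟨SemidirectProduct.inl v, hv⟩ (Subgroup.mem_subgroupOf.2 ⟨v, rfl⟩)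
      exact right_fix (congrArg Subtype.val h2).symm
    exact ⟨_, (eq_inl h1).symm⟩

/-- the block -/
theorem Cx.blk (inf : InfStmt) (onb : OnbStmt) (hM : (ℓ : integralClosure ℤ ℂ) ∈ M)
    [CharP (FF M) ℓ] : IsBlk (kf (FF M) π) ∧ IrrE M (kf (FF M) π) =
      {χ | ∃ κ ∈ Irr (V₀ ⋊[E₀.subtype] E₀), χ = fun x => κ (π x)} := by
  have hf : Finite (V₀ ⋊[E₀.subtype] E₀) := Finite.of_surjective π h.sur
  refine blk_gen M inf onb hM π h.sur (h.one' (FF M))
    (SemidirectProduct.inl : V₀ →* V₀ ⋊[E₀.subtype] E₀).range ?_ ?_ ?_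
  · rw [SemidirectProduct.range_inl_eq_ker_rightHom]
    exact MonoidHom.normal_ker _
  · rintro ⟨x, v, rfl⟩
    refine ⟨1, Subtype.ext ?_⟩
    change (SemidirectProduct.inl v : V₀ ⋊[E₀.subtype] E₀) ^ ℓ ^ 1 = 1
    rw [pow_one, ← map_pow, h.ex, map_one]
  · intro x hx
    rw [Subgroup.mem_centralizer_iff] at hx
    have h1 : x.right = 1 := by
      apply Subtype.ext
      apply MulEquiv.ext
      intro v
      exact right_fix (hx (SemidirectProduct.inl v) ⟨v, rfl⟩).symm
    exact ⟨_, (eq_inl h1).symm⟩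

/-- the block of the centraliser of `V` -/
theorem Cx.bxg (onb : OnbStmt) (hM : (ℓ : integralClosure ℤ ℂ) ∈ M) :
    Bx (Subgroup.centralizer (ι.range : Set G)) (one1 : G → FF M) := by
  refine ⟨fun x hx => ?_, ?_⟩
  · unfold one1
    rw [if_neg]
    rintro rfl
    exact hx (Subgroup.one_mem _)
  · have h1 := (onb ℓ M hM (Subgroup.centralizer (ι.range : Set G)) ⊤ inferInstance ?_ le_top).1
    · have e : (fun t : Subgroup.centralizer (ι.range : Set G) => (one1 : G → FF M) t) =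
          (one1 : Subgroup.centralizer (ι.range : Set G) → FF M) := by
        funext t
        unfold one1
        by_cases ht : t = 1
        · rw [if_pos ht, if_pos (by rw [ht, Subgroup.coe_one])]
        · rw [if_neg ht, if_neg]
          exact fun h' => ht (Subtype.ext h')
      rw [e]
      exact h1
    · rintro ⟨⟨x, hx⟩, -⟩
      obtain ⟨v, hv⟩ := h.cen hx
      refine ⟨1, Subtype.ext (Subtype.ext ?_)⟩
      change x ^ ℓ ^ 1 = 1
      rw [← hv, pow_one, ← map_pow, h.ex, map_one]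

omit [Finite G] [Fact ℓ.Prime] in
theorem Cx.br {F : Type} [Field F] {f : G → F} (hf : ∀ x ∈ ι.range, f x = kf F π x) :
    br ι.range f = one1 := by
  funext x
  by_cases hx : x ∈ Subgroup.centralizer (ι.range : Set G)
  · rw [H66.br_of_mem hx, hf x (h.cen hx)]
    unfold kf one1
    by_cases h1 : x = 1
    · rw [if_pos h1, h1, if_pos (map_one π)]
    · rw [if_neg h1, if_neg]
      exact fun h2 => h1 (h.mem1 (h.cen hx) h2)
  · rw [H66.br_of_not_mem hx]
    unfold one1
    rw [if_neg]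
    rintro rfl
    exact hx (Subgroup.one_mem _)

/-- `V` is a defect group -/
theorem Cx.tp {F : Type} [Field F] : Tp ℓ (kf F π) ι.range := by
  refine ⟨h.pg, ⟨1, Subgroup.one_mem _, ?_⟩, fun Q hQ _ => ?_⟩
  · unfold kf
    rw [if_pos (map_one π)]
    exact one_ne_zero
  · have hfA : Finite (V₀ ⋊[E₀.subtype] E₀) := Finite.of_surjective π h.sur
    have hinj : Function.Injective (π.comp Q.subtype) := by
      rw [injective_iff_map_eq_one]
      intro x hx
      obtain ⟨n, hn⟩ := hQ x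
      apply Subtype.ext
      exact cop h.ck (x := (x : G)) hx (n := n) (by
        rw [← Subgroup.coe_pow, hn, Subgroup.coe_one])
    have hdvd : Nat.card Q ∣ ℓ ^ 2 * Nat.card E₀ := by
      rw [← h.cd, ← SemidirectProduct.card]
      exact Subgroup.card_dvd_of_injective _ hinj
    obtain ⟨n, hn⟩ := IsPGroup.iff_card.1 hQ
    have hcop : (Nat.card Q).Coprime (Nat.card E₀) := by
      rw [hn]
      exact Nat.Coprime.pow_left n ((Nat.Prime.coprime_iff_not_dvd Fact.out).2 h.ce)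
    rw [h.card]
    exact Nat.le_of_dvd (pow_pos (Nat.Prime.pos Fact.out) 2) (hcop.dvd_of_dvd_mul_right hdvd)

/-- the basic data of the block -/
theorem Cx.ld (inf : InfStmt) (onb : OnbStmt) (hM : (ℓ : integralClosure ℤ ℂ) ∈ M)
    [CharP (FF M) ℓ] : Ld ℓ (kf (FF M) π) ι.range one1 := by
  refine ⟨(h.blk M inf onb hM).1, h.tp, fun a ha b hb => comm_range ha hb, h.bxg M onb hM, ?_⟩
  rw [h.br fun _ _ => rfl]
  exact (h.bxg M onb hM).mul

omit [Finite G] [Fact ℓ.Prime] in
theorem Cx.conj {t : G} (ht : t ∈ Subgroup.normalizer (ι.range : Set G)) (v : V₀) :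
    t * ι v * t⁻¹ = ι (((π t).right : MulAut V₀) v) := by
  have h1 : t * ι v * t⁻¹ ∈ ι.range := (Subgroup.mem_normalizer_iff.1 ht (ι v)).1 ⟨v, rfl⟩
  obtain ⟨w, hw⟩ := h1
  rw [← hw]
  congr 1
  have h2 : π (ι w) * π t = π t * π (ι v) := by
    rw [hw, ← map_mul, ← map_mul]
    congr 1
    group
  rw [h.pi, h.pi, mul_inl] at h2
  exact SemidirectProduct.inl_injective (mul_right_cancel h2)

omit h [Finite G] [Fact ℓ.Prime] in
theorem range_le (W : Subgroup V₀) :
    ι.range ≤ Subgroup.centralizer ((W.map ι : Subgroup G) : Set G) := by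
  intro x hx
  rw [Subgroup.mem_centralizer_iff]
  rintro _ ⟨w, -, rfl⟩
  exact comm_range ⟨w, rfl⟩ hx

/-- the degrees -/
theorem Cx.dg (inf : InfStmt) (onb : OnbStmt) (hM : (ℓ : integralClosure ℤ ℂ) ∈ M)
    [CharP (FF M) ℓ] (W : Subgroup V₀) (hW : ∀ σ ∈ E₀, (∀ w ∈ W, σ w = w) → σ = 1) :
    Dg M (kf (FF M) (π.subgroupMap (Subgroup.centralizer ((W.map ι : Subgroup G) : Set G)))) 1 := by
  have hfA : Finite (V₀ ⋊[E₀.subtype] E₀) := Finite.of_surjective π h.sur
  obtain ⟨C, hC⟩ : ∃ C, C = Subgroup.centralizer ((W.map ι : Subgroup G) : Set G) := ⟨_, rfl⟩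
  rw [← hC]
  have hVC : ι.range ≤ C := by
    rw [hC]
    exact range_le W
  refine ⟨one_pos, fun κ hκ => ?_⟩
  rw [(h.blkC M inf onb hM hVC).2] at hκ
  obtain ⟨κ', hκ', rfl⟩ := hκ
  have hr : ∀ x ∈ C.map π, ∃ v, x = SemidirectProduct.inl v := by
    rintro _ ⟨t, ht, rfl⟩
    refine ⟨_, eq_inl ?_⟩
    apply Subtype.ext
    refine hW _ (π t).right.2 fun w hw => ?_
    apply right_fix
    rw [← h.pi, ← map_mul, ← map_mul]
    congr 1
    rw [hC, SetLike.mem_coe, Subgroup.mem_centralizer_iff] at ht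
    exact (ht (ι w) ⟨w, hw, rfl⟩).symm
  have hcomm : ∀ x y : C.map π, x * y = y * x := by
    intro x y
    obtain ⟨v, hv⟩ := hr x x.2
    obtain ⟨w, hw⟩ := hr y y.2
    apply Subtype.ext
    rw [Subgroup.coe_mul, Subgroup.coe_mul, hv, hw, ← map_mul, ← map_mul, mul_comm]
  obtain ⟨ψ, hψ⟩ := Helper79_WRA.H46.irr_comm hcomm hκ'
  rw [hψ]
  simp

end cx

end CM

/-- CMI -/
theorem cmi (inf : InfStmt) (onb : OnbStmt) : CmiStmt := by
  intro ℓ _ M _ hM V₀ _ _ hex hcd E₀ hE G _ _ π ι ε hs hK hι hε hconj hcent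
  have hF : GoodF ℓ (FF M) := H50.fld ℓ Fact.out M hM
  have hch : CharP (FF M) ℓ := hF.char
  have h : CM.Cx ℓ E₀ π ι := ⟨hex, hcd, hE, hs, hK, hι, hcent⟩
  classical
  obtain ⟨b, hb⟩ : ∃ b : Subgroup V₀ → G → FF M, b = fun W x =>
    if x ∈ Subgroup.centralizer ((W.map ι : Subgroup G) : Set G) then CM.kf (FF M) π x else 0 :=
      ⟨_, rfl⟩
  have hb1 : ∀ (W : Subgroup V₀) (x : G),
      x ∈ Subgroup.centralizer ((W.map ι : Subgroup G) : Set G) →
        b W x = CM.kf (FF M) π x := by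
    intro W x hx
    rw [hb]
    exact if_pos hx
  have hb0 : ∀ (W : Subgroup V₀) (x : G),
      x ∉ Subgroup.centralizer ((W.map ι : Subgroup G) : Set G) → b W x = 0 := by
    intro W x hx
    rw [hb]
    exact if_neg hx
  have hb2 : ∀ W : Subgroup V₀,
      (fun t : Subgroup.centralizer ((W.map ι : Subgroup G) : Set G) => b W t) =
        CM.kf (FF M) (π.subgroupMap
          (Subgroup.centralizer ((W.map ι : Subgroup G) : Set G))) := by
    intro W
    funext t
    rw [hb1 W t t.2]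
    unfold CM.kf
    by_cases ht : π t = 1
    · rw [if_pos ht, if_pos (Subtype.ext ht)]
    · rw [if_neg ht, if_neg]
      exact fun h' => ht (congrArg Subtype.val h')
  refine ⟨⟨CM.kf (FF M) π, one1, ι, b, fun _ => 1, fun _ => 1⟩, rfl, ⟨h.inj, h.ld M inf onb hM,
    ?_, ?_, ?_⟩, fun _ => rfl, fun _ => rfl, ?_, ?_, ?_⟩
  · intro t ht
    exact ⟨_, (π t).right.2, fun v => h.conj ht.1 v⟩
  · intro σ hσ
    have hc : ∀ v, ε ⟨σ, hσ⟩ * ι v * (ε ⟨σ, hσ⟩)⁻¹ = ι (σ v) := fun v => hconj ⟨σ, hσ⟩ v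
    refine ⟨ε ⟨σ, hσ⟩, ⟨?_, ?_⟩, hc⟩
    · change ε ⟨σ, hσ⟩ ∈ Subgroup.normalizer (ι.range : Set G)
      rw [Subgroup.mem_normalizer_iff]
      intro x
      constructor
      · rintro ⟨v, rfl⟩
        rw [hc]
        exact ⟨_, rfl⟩
      · rintro ⟨w, hw⟩
        refine ⟨σ⁻¹ w, ?_⟩
        have h1 := hc (σ⁻¹ w)
        have h2 : σ (σ⁻¹ w) = w := σ.apply_symm_apply w
        rw [h2, hw] at h1
        have h3 := mul_left_cancel (mul_right_cancel h1)
        exact h3
    · intro x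
      change (one1 (ε ⟨σ, hσ⟩ * x * (ε ⟨σ, hσ⟩)⁻¹) : FF M) = one1 x
      unfold one1
      by_cases hx : x = 1
      · rw [if_pos hx, if_pos (by rw [hx]; group)]
      · rw [if_neg hx, if_neg]
        intro h'
        exact hx (conj_eq_one_iff.1 h')
  · intro W
    refine ⟨⟨fun x hx => hb0 W x hx, ?_⟩, ?_, ?_⟩
    · change IsBlk (fun t : Subgroup.centralizer ((W.map ι : Subgroup G) : Set G) => b W t)
      rw [hb2]
      exact (h.blkC M inf onb hM (CM.range_le W)).1
    · have e : (fun t : Subgroup.centralizer ((W.map ι : Subgroup G) : Set G) =>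
          CM.kf (FF M) π t) =
          fun t : Subgroup.centralizer ((W.map ι : Subgroup G) : Set G) => b W t := by
        funext t
        exact (hb1 W t t.2).symm
      change mulF (fun t : Subgroup.centralizer ((W.map ι : Subgroup G) : Set G) =>
          CM.kf (FF M) π t)
        (fun t : Subgroup.centralizer ((W.map ι : Subgroup G) : Set G) => b W t) =
        fun t : Subgroup.centralizer ((W.map ι : Subgroup G) : Set G) => b W t
      rw [e, hb2]
      exact (h.blkC M inf onb hM (CM.range_le W)).1.1.2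
    · change mulF (br ι.range (b W)) one1 = one1
      rw [h.br fun x hx => hb1 W x (CM.range_le W hx)]
      exact (h.bxg M onb hM).mul
  · change (IrrE M (CM.kf (FF M) π)).ncard = _
    rw [(h.blk M inf onb hM).2]
    have e : {χ : G → ℂ | ∃ κ ∈ Irr (V₀ ⋊[E₀.subtype] E₀), χ = fun x => κ (π x)} =
        (fun κ : V₀ ⋊[E₀.subtype] E₀ → ℂ => fun x : G => κ (π x)) ''
          Irr (V₀ ⋊[E₀.subtype] E₀) := by
      ext χ
      constructor
      · rintro ⟨κ, hκ, rfl⟩
        exact ⟨κ, hκ, rfl⟩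
      · rintro ⟨κ, hκ, rfl⟩
        exact ⟨κ, hκ, rfl⟩
    rw [e]
    refine Set.ncard_image_of_injective _ fun κ κ' hκ => ?_
    funext y
    obtain ⟨x, rfl⟩ := hs y
    exact congrFun hκ x
  · rintro x ⟨n, hn⟩
    have h1 : (π x).right = 1 := by
      have h2 : (π x).right ^ ℓ ^ n = 1 := by
        have h3 := congrArg (fun y => SemidirectProduct.rightHom (π y)) hn
        simp only [map_pow, map_one] at h3
        exact h3
      have h4 := CM.cop (ℓ := ℓ) (K := (⊤ : Subgroup E₀)) (x := (π x).right) (by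
        rw [Subgroup.card_top]
        exact hE) (Subgroup.mem_top _) (n := n) h2
      exact h4
    have h2 : π (x ^ ℓ) = 1 := by
      rw [map_pow, CM.eq_inl h1, ← map_pow, hex, map_one]
    refine CM.cop hK (x := x ^ ℓ) h2 (n := n) ?_
    rw [← pow_mul, mul_comm, pow_mul, hn, one_pow]
  · intro W hW
    change Dg M (fun t : Subgroup.centralizer ((W.map ι : Subgroup G) : Set G) => b W t) 1
    rw [hb2]
    exact h.dg M inf onb hM W hW

end Pool.Agent.PP.SO.H76
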